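import Pool.Agent.Helper87.TC.Lib

set_option autoImplicit false

namespace Pool.Agent.Helper87.TC

open MvPolynomial Pool.Agent.Helper48.VMRT Pool.Agent.Helper87.VM

theorem uni2_ev_smul {κ μ : Type} {m : ℕ} {E : μ → MvPolynomial κ ℂ} (h : ∀ i, HomE m (E i))
    (a : ℂ) (x : κ → ℂ) : ev E (a • x) = a ^ m • ev E x :=
  funext fun i => h i a x

/-- The plane spanned by `p`, `q` in the coordinates given by a point over `(1, u)`. -/
theorem uni2_lin {w : ℕ} (p q : Option (Fin w) → ℂ) (u : Fin w → ℂ) (s₀ t₀ mu : ℂ)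
    (hmu : mu ≠ 0) (h : s₀ • p + t₀ • q = mu • ov 1 u) (s t : ℂ) :
    s • p + t • q = (s * p none + t * q none) • ov 1 u +
      ((s * t₀ - t * s₀) / mu) • ov 0 (fun i => q none * p (some i) - p none * q (some i)) := by
  have h0 : s₀ * p none + t₀ * q none = mu := by
    have := congrFun h none
    simpa using this
  funext o
  cases o with
  | none => simp
  | some i =>
    have h1 : s₀ * p (some i) + t₀ * q (some i) = mu * u i := by
      have := congrFun h (some i)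
      simpa using this
    simp only [Pi.add_apply, Pi.smul_apply, smul_eq_mul, ov_some]
    field_simp
    linear_combination (s * p none + t * q none) * h1 -
      (s * p (some i) + t * q (some i)) * h0

theorem uni2_zero_mem {D : VD} {M N : ℕ} {g : D.G}
    {E : Fin (N + 1) → MvPolynomial (Option (Fin D.w) × D.ν) ℂ} {X DX : Set (Fin (N + 1) → ℂ)}
    {ε : ℂ} (hT : TR D M g N E X DX ε) : (0 : Fin (N + 1) → ℂ) ∈ DX := by
  have h0 : (0 : Option (Fin D.w) × D.ν → ℂ) ∈ FX D (g ^ (2 ^ M)) := by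
    left
    rw [map_zero]
  have h1 := hT.res.dcone 0 _ (hT.res.on _ h0)
  rwa [zero_smul] at h1

theorem st_UNI2 (hM : ST_MEM2) (hH : ST_HTR2) (hH0 : ST_HTR0) : ST_UNI2 := by
  intro D M g N E X DX ε hT u c₀ hc₀ hu c hc s₀ t₀ hst hv
  obtain ⟨p, q, hLP, hE, hD⟩ := hc
  obtain ⟨y, η, hy, hη, hyv, hyY, hηF, hpt, hFX⟩ := hM D M g N E X DX ε hT p q hLP c hE hD
  have hgood : D.Good := hT.td.good
  have hhom := uni2_ev_smul hT.res.hom
  have hvne : pt c s₀ t₀ ∉ DX := hD s₀ t₀ hst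
  have hv0 : pt c s₀ t₀ ≠ 0 := fun h => hvne (h ▸ uni2_zero_mem hT)
  -- the two points
  have hy0Y : c₀ • D.gr (ov 1 u) ∈ D.Y := yc_cone c₀ (D.gr_mem (ov 1 u))
  have hy0F : c₀ • D.gr (ov 1 u) ∉ FX D (g ^ (2 ^ M)) := by
    intro h
    apply hvne
    rw [hv]
    exact hT.res.on _ h
  obtain ⟨i, c', hc'⟩ := hT.res.sep _ hy0Y hy0F _ (hyY s₀ t₀) (hFX s₀ t₀ hst) 1 (by
    rw [one_smul, ← hpt, hv])
  have hpow : (D.ρY g ^ i : (Option (Fin D.w) × D.ν → ℂ) →ₗ[ℂ] _) = D.ρY (g ^ i) :=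
    (map_pow D.ρY g i).symm
  rw [hpow, map_smul, ← (hH0 D hgood (g ^ i)).1, smul_smul] at hc'
  have hxne : s₀ • p + t₀ • q ≠ 0 := by
    intro h0
    have h1 := LinearIndependent.pair_iff.1 hLP.ind s₀ t₀ h0
    exact hst (Prod.ext h1.1 h1.2)
  have hseg : seg (s₀ • p + t₀ • q) (hevv (D.a - 1) η s₀ t₀) =
      seg ((c' * c₀) • oext D.ρ (g ^ i) (ov 1 u)) (ev D.F (oext D.ρ (g ^ i) (ov 1 u))) := by
    rw [seg_smul_left, ← hyv, hc']
    rfl
  have hseg0 : seg (s₀ • p + t₀ • q) (hevv (D.a - 1) η s₀ t₀) ≠ 0 :=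
    seg_ne_zero hxne (hη.ne s₀ t₀ hst)
  obtain ⟨r, hr, hr1, -⟩ := seg_eq_seg hseg hseg0
  have hcc : c' * c₀ ≠ 0 := by
    intro h
    rw [h, zero_smul] at hr1
    exact (smul_ne_zero hr hxne) hr1.symm
  -- the new data
  obtain ⟨lam, hlam, hLP1, hE1⟩ := hH D M g N E X DX ε hT (g ^ i)⁻¹ p q hLP
  have hE1' := hE1 c hE
  set p1 := lam • oext D.ρ (g ^ i)⁻¹ p with hp1
  set q1 := lam • oext D.ρ (g ^ i)⁻¹ q with hq1
  set mu : ℂ := lam * (r⁻¹ * (c' * c₀)) with hmu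
  have hmu0 : mu ≠ 0 := mul_ne_zero hlam (mul_ne_zero (inv_ne_zero hr) hcc)
  have hx1 : s₀ • p1 + t₀ • q1 = mu • ov 1 u := by
    have h1 : s₀ • p + t₀ • q = (r⁻¹ * (c' * c₀)) • oext D.ρ (g ^ i) (ov 1 u) := by
      rw [mul_smul, hr1, smul_smul, inv_mul_cancel₀ hr, one_smul]
    have h2 : s₀ • p1 + t₀ • q1 = lam • oext D.ρ (g ^ i)⁻¹ (s₀ • p + t₀ • q) := by
      rw [hp1, hq1, map_add, map_smul, map_smul, smul_add, smul_comm s₀, smul_comm t₀]
    have h3 : oext D.ρ (g ^ i)⁻¹ (oext D.ρ (g ^ i) (ov 1 u)) = ov 1 u := by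
      have h4 : (oext D.ρ (g ^ i)⁻¹ * oext D.ρ (g ^ i) :
          (Option (Fin D.w) → ℂ) →ₗ[ℂ] (Option (Fin D.w) → ℂ)) = 1 := by
        rw [← map_mul, inv_mul_cancel, map_one]
      exact congrArg (fun L : (Option (Fin D.w) → ℂ) →ₗ[ℂ] (Option (Fin D.w) → ℂ) => L (ov 1 u)) h4
    rw [h2, h1, map_smul, h3, smul_smul]
  have hA0 : s₀ * p1 none + t₀ * q1 none = mu := by
    have := congrFun hx1 none
    simpa using this
  have hlin := uni2_lin p1 q1 u s₀ t₀ mu hmu0 hx1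
  set z : Fin D.w → ℂ := fun i => q1 none * p1 (some i) - p1 none * q1 (some i) with hz
  -- the identity
  have key : ∀ s t : ℂ, ((s * p1 none + t * q1 none) / mu) ^ 4 ^ (M + 1) • pt c s t =
      mu ^ (D.a * 4 ^ (M + 1)) • ev E (D.gr (((s * p1 none + t * q1 none) / mu) • ov 1 u +
        ((s * t₀ - t * s₀) / mu ^ 2) • ov 0 z)) := by
    intro s t
    have h1 := hE1' s t
    rw [hlin s t] at h1
    have h2 : (s * p1 none + t * q1 none) • ov 1 u + ((s * t₀ - t * s₀) / mu) • ov 0 z =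
        mu • (((s * p1 none + t * q1 none) / mu) • ov 1 u +
          ((s * t₀ - t * s₀) / mu ^ 2) • ov 0 z) := by
      rw [smul_add, smul_smul, smul_smul]
      congr 2
      · field_simp
      · field_simp
    rw [h2, D.gr_smul hgood.fd.hom, hhom, ← pow_mul] at h1
    rw [div_pow, div_eq_inv_mul, mul_smul, h1, smul_smul]
    congr 1
    rw [show (D.a + 1) * 4 ^ (M + 1) = D.a * 4 ^ (M + 1) + 4 ^ (M + 1) from by ring,
      pow_add mu (D.a * 4 ^ (M + 1)) (4 ^ (M + 1)), mul_comm (mu ^ (D.a * 4 ^ (M + 1))),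
      ← mul_assoc, inv_mul_cancel₀ (pow_ne_zero _ hmu0), one_mul]
  have hAB : ((s₀ * p1 none + t₀ * q1 none) / mu) = 1 := by
    rw [hA0, div_self hmu0]
  have hcK : c₀ ^ 4 ^ (M + 1) = mu ^ (D.a * 4 ^ (M + 1)) := by
    have h1 := key s₀ t₀
    rw [hAB, one_pow, one_smul, one_smul, show s₀ * t₀ - t₀ * s₀ = 0 from by ring, zero_div,
      zero_smul, add_zero] at h1
    have h2 : (c₀ ^ 4 ^ (M + 1) - mu ^ (D.a * 4 ^ (M + 1))) • ev E (D.gr (ov 1 u)) = 0 := by
      rw [sub_smul, ← h1, hv, hhom, sub_self]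
    rcases smul_eq_zero.1 h2 with h3 | h3
    · exact sub_eq_zero.1 h3
    · exfalso
      apply hv0
      rw [h1, h3, smul_zero]
  refine ⟨z, hLP1.mem, ?_, p1 none / mu, q1 none / mu, t₀ / mu ^ 2, -s₀ / mu ^ 2, ?_, ?_, ?_, ?_⟩
  · -- `z` is not zero
    intro hz0
    have h1 : q1 none • p1 + (-p1 none) • q1 = 0 := by
      funext o
      cases o with
      | none => simp; ring
      | some j =>
        have h2 := congrFun hz0 j
        simp only [hz, Pi.zero_apply] at h2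
        simp only [Pi.add_apply, Pi.smul_apply, smul_eq_mul, Pi.zero_apply]
        linear_combination h2
    have h3 := LinearIndependent.pair_iff.1 hLP1.ind _ _ h1
    rcases hLP1.ne with h4 | h4
    · exact h4 (neg_eq_zero.1 h3.2)
    · exact h4 h3.1
  · have : p1 none / mu * (-s₀ / mu ^ 2) - q1 none / mu * (t₀ / mu ^ 2) = -(1 / mu ^ 2) := by
      have h1 : p1 none / mu * (-s₀ / mu ^ 2) - q1 none / mu * (t₀ / mu ^ 2) =
          -((s₀ * p1 none + t₀ * q1 none) / mu ^ 3) := by ring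
      rw [h1, hA0]
      field_simp
    rw [this]
    exact neg_ne_zero.2 (one_div_ne_zero (pow_ne_zero _ hmu0))
  · rw [← hAB]; ring
  · ring
  · intro s t
    have h1 := key s t
    rw [← hcK, ← hhom] at h1
    have e1 : p1 none / mu * s + q1 none / mu * t = (s * p1 none + t * q1 none) / mu := by ring
    have e2 : t₀ / mu ^ 2 * s + -s₀ / mu ^ 2 * t = (s * t₀ - t * s₀) / mu ^ 2 := by ring
    rw [e1, e2]
    exact h1

end Pool.Agent.Helper87.TC
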